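import Pool.Agent.TH948.HT.Defs

set_option autoImplicit false
set_option linter.unusedSectionVars false

/-!
# Integer vectors of small complexity: the union bound
-/

namespace Pool.Agent.TH948.HT

open Finset
open scoped Classical
open Pool.Agent.TH965.Spread Pool.Agent.TH948.KK Pool.Agent.TH948.BD

namespace P5

/-! ### Tails -/

lemma mgf {X : Type*} [DecidableEq X] (s A : Finset X) (p c : ℝ) :
    exs s p (fun W => c ^ (W ∩ A).card) = (1 - p + p * c) ^ (s ∩ A).card := by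
  induction s using Finset.induction_on with
  | empty => simp [exs_empty]
  | insert x s hx ih =>
    rw [exs_insert s x hx, ih]
    by_cases hxA : x ∈ A
    · have e : exs s p (fun W => c ^ ((insert x W) ∩ A).card)
          = c * exs s p (fun W => c ^ (W ∩ A).card) := by
        rw [← exs_mul_left]
        apply exs_congr
        intro W hW
        have : x ∉ W ∩ A := fun h => hx (hW (Finset.mem_inter.1 h).1)
        rw [Finset.insert_inter_of_mem hxA, Finset.card_insert_of_notMem this, pow_succ, mul_comm]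
      rw [e, ih, Finset.insert_inter_of_mem hxA,
        Finset.card_insert_of_notMem (fun h => hx (Finset.mem_inter.1 h).1), pow_succ]
      ring
    · have e : exs s p (fun W => c ^ ((insert x W) ∩ A).card)
          = exs s p (fun W => c ^ (W ∩ A).card) := by
        apply exs_congr
        intro W hW
        rw [Finset.insert_inter_of_notMem hxA]
      rw [e, ih, Finset.insert_inter_of_notMem hxA]
      ring

lemma tail {X : Type*} [DecidableEq X] (s A : Finset X) (hA : A ⊆ s) {p : ℝ} (hp0 : 0 ≤ p)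
    (hp1 : p ≤ 1) (t : ℝ) :
    exs s p (fun W => ind (((W ∩ A).card : ℝ) < t)) ≤ Real.exp (t - 3 / 5 * (p * A.card)) := by
  have h1 : exs s p (fun W => ind (((W ∩ A).card : ℝ) < t)) ≤
      exs s p (fun W => Real.exp t * Real.exp (-1) ^ (W ∩ A).card) := by
    apply exs_mono s hp0 hp1
    intro W _
    by_cases h : ((W ∩ A).card : ℝ) < t
    · rw [ind_true h, ← Real.exp_nat_mul, ← Real.exp_add]
      apply Real.one_le_exp
      linarith
    · rw [ind_false h]
      positivity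
  refine h1.trans ?_
  rw [exs_mul_left, mgf, Finset.inter_eq_right.2 hA]
  have h2 : Real.exp (-1) ≤ 2 / 5 := by
    have := Real.exp_neg_one_lt_d9
    linarith
  have h3 : 1 - p + p * Real.exp (-1) ≤ Real.exp (-(3 / 5 * p)) := by
    have h4 := Real.add_one_le_exp (-(3 / 5 * p))
    have h5 := mul_le_mul_of_nonneg_left h2 hp0
    linarith
  have h6 : 0 ≤ 1 - p + p * Real.exp (-1) := by
    have := mul_nonneg hp0 (Real.exp_pos (-1)).le
    linarith
  have h7 := pow_le_pow_left₀ h6 h3 A.card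
  rw [← Real.exp_nat_mul] at h7
  have h8 := mul_le_mul_of_nonneg_left h7 (Real.exp_pos t).le
  rw [← Real.exp_add] at h8
  refine h8.trans (le_of_eq ?_)
  congr 1
  ring

/-! ### Counting vectors -/

lemma sum_w (M : ℕ) : ∑ m ∈ Finset.Icc (-(M : ℤ)) M, (1 : ℝ) / (1 + |(m : ℝ)|) ^ 2 ≤
    3 - 2 / ((M : ℝ) + 1) := by
  induction M with
  | zero => simp; norm_num
  | succ M ih =>
    have h1 : Finset.Icc (-((M + 1 : ℕ) : ℤ)) ((M + 1 : ℕ) : ℤ) =
        insert ((M + 1 : ℕ) : ℤ) (insert (-((M + 1 : ℕ) : ℤ)) (Finset.Icc (-(M : ℤ)) M)) := by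
      ext x
      simp only [Finset.mem_Icc, Finset.mem_insert]
      push_cast
      omega
    rw [h1, Finset.sum_insert, Finset.sum_insert]
    · have hM : (0 : ℝ) ≤ M := Nat.cast_nonneg M
      have e1 : |(((M + 1 : ℕ) : ℤ) : ℝ)| = (M : ℝ) + 1 := by
        push_cast
        exact abs_of_nonneg (by linarith)
      have e2 : |((-((M + 1 : ℕ) : ℤ) : ℤ) : ℝ)| = (M : ℝ) + 1 := by
        push_cast
        rw [abs_neg]
        exact abs_of_nonneg (by linarith)
      rw [e1, e2]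
      have h2 : (1 : ℝ) / (1 + ((M : ℝ) + 1)) ^ 2 ≤ 1 / ((M : ℝ) + 1) - 1 / ((M : ℝ) + 2) := by
        rw [div_sub_div _ _ (by linarith) (by linarith), div_le_div_iff₀ (by positivity)
          (by positivity)]
        nlinarith
      have e3 : 2 / ((((M + 1 : ℕ) : ℝ)) + 1) = 2 * (1 / ((M : ℝ) + 2)) := by
        push_cast
        rw [show (M : ℝ) + 1 + 1 = M + 2 by ring]
        ring
      have e4 : 2 / ((M : ℝ) + 1) = 2 * (1 / ((M : ℝ) + 1)) := by ring
      rw [e3]
      rw [e4] at ih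
      linarith
    · simp only [Finset.mem_Icc]
      push_cast
      omega
    · simp only [Finset.mem_Icc, Finset.mem_insert]
      push_cast
      omega

lemma count {ι : Type*} [Fintype ι] [DecidableEq ι] (U : Finset ι) (M N : ℕ) :
    (((Fintype.piFinset (fun f : ι => if f ∈ U then Finset.Icc (-(M : ℤ)) M else {0})).filter
      (fun z => ∏ f, (1 + |z f|) ≤ (N : ℤ))).card : ℝ) ≤ (N : ℝ) ^ 2 * 3 ^ U.card := by
  set S := Fintype.piFinset (fun f : ι => if f ∈ U then Finset.Icc (-(M : ℤ)) M else {0}) with hS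
  have h1 : ∑ z ∈ S, ∏ f, ((1 : ℝ) / (1 + |((z f : ℤ) : ℝ)|) ^ 2) ≤ 3 ^ U.card := by
    rw [hS, ← Finset.prod_univ_sum (fun f : ι => if f ∈ U then Finset.Icc (-(M : ℤ)) M else {0})
      (fun _ m => (1 : ℝ) / (1 + |(m : ℝ)|) ^ 2)]
    calc ∏ f : ι, ∑ m ∈ (if f ∈ U then Finset.Icc (-(M : ℤ)) M else {0}),
          (1 : ℝ) / (1 + |(m : ℝ)|) ^ 2
        ≤ ∏ f : ι, (if f ∈ U then (3 : ℝ) else 1) := by
          apply Finset.prod_le_prod
          · intro f _
            exact Finset.sum_nonneg fun m _ => by positivity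
          · intro f _
            split_ifs with hf
            · refine (sum_w M).trans ?_
              have : 0 ≤ 2 / ((M : ℝ) + 1) := by positivity
              linarith
            · simp
      _ = 3 ^ U.card := by
          rw [Finset.prod_ite, Finset.prod_const, Finset.prod_const_one, mul_one]
          congr 2
          ext f
          simp
  have h2 : ∀ z ∈ S.filter (fun z => ∏ f, (1 + |z f|) ≤ (N : ℤ)),
      (1 : ℝ) ≤ (N : ℝ) ^ 2 * ∏ f, ((1 : ℝ) / (1 + |((z f : ℤ) : ℝ)|) ^ 2) := by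
    intro z hz
    have h3 := (Finset.mem_filter.1 hz).2
    have h4 : ∏ f, (1 + |((z f : ℤ) : ℝ)|) ≤ (N : ℝ) := by
      have : ((∏ f, (1 + |z f|) : ℤ) : ℝ) ≤ ((N : ℤ) : ℝ) := by exact_mod_cast h3
      push_cast at this
      exact this
    have h5 : 0 < ∏ f, (1 + |((z f : ℤ) : ℝ)|) :=
      Finset.prod_pos fun f _ => by positivity
    have h6 : ∏ f, ((1 : ℝ) / (1 + |((z f : ℤ) : ℝ)|) ^ 2) =
        1 / (∏ f, (1 + |((z f : ℤ) : ℝ)|)) ^ 2 := by
      rw [Finset.prod_div_distrib, Finset.prod_const_one, Finset.prod_pow]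
    rw [h6, mul_one_div, le_div_iff₀ (by positivity), one_mul]
    exact pow_le_pow_left₀ h5.le h4 2
  calc ((S.filter (fun z => ∏ f, (1 + |z f|) ≤ (N : ℤ))).card : ℝ)
      = ∑ _z ∈ S.filter (fun z => ∏ f, (1 + |z f|) ≤ (N : ℤ)), (1 : ℝ) := by simp
    _ ≤ ∑ z ∈ S.filter (fun z => ∏ f, (1 + |z f|) ≤ (N : ℤ)),
        (N : ℝ) ^ 2 * ∏ f, ((1 : ℝ) / (1 + |((z f : ℤ) : ℝ)|) ^ 2) := Finset.sum_le_sum h2
    _ ≤ ∑ z ∈ S, (N : ℝ) ^ 2 * ∏ f, ((1 : ℝ) / (1 + |((z f : ℤ) : ℝ)|) ^ 2) :=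
        Finset.sum_le_sum_of_subset_of_nonneg (Finset.filter_subset _ _) fun z _ _ => by
          have : 0 ≤ ∏ f, ((1 : ℝ) / (1 + |((z f : ℤ) : ℝ)|) ^ 2) :=
            Finset.prod_nonneg fun f _ => by positivity
          positivity
    _ = (N : ℝ) ^ 2 * ∑ z ∈ S, ∏ f, ((1 : ℝ) / (1 + |((z f : ℤ) : ℝ)|) ^ 2) := by
        rw [Finset.mul_sum]
    _ ≤ (N : ℝ) ^ 2 * 3 ^ U.card := mul_le_mul_of_nonneg_left h1 (by positivity)

lemma subsets_card {X : Type*} [DecidableEq X] (S : Finset X) (m : ℕ) :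
    (S.powerset.filter (fun R => R.card ≤ m)).card ≤ (S.card + 1) ^ m := by
  have h1 : S.powerset.filter (fun R => R.card ≤ m) ⊆
      (Finset.range (m + 1)).biUnion (fun i => S.powersetCard i) := by
    intro R hR
    rw [Finset.mem_filter, Finset.mem_powerset] at hR
    rw [Finset.mem_biUnion]
    exact ⟨R.card, Finset.mem_range.2 (by omega), Finset.mem_powersetCard.2 ⟨hR.1, rfl⟩⟩
  refine (Finset.card_le_card h1).trans (Finset.card_biUnion_le.trans ?_)
  rw [add_pow]
  apply Finset.sum_le_sum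
  intro i hi
  rw [Finset.card_powersetCard, one_pow, mul_one]
  have h2 : S.card.choose i ≤ S.card ^ i := Nat.choose_le_pow _ _
  have h3 : 0 < m.choose i := Nat.choose_pos (by have := Finset.mem_range.1 hi; omega)
  calc S.card.choose i ≤ S.card ^ i * 1 := by omega
    _ ≤ S.card ^ i * m.choose i := Nat.mul_le_mul_left _ h3

/-! ### The finite set of vectors -/

/-- the facets containing a member of `R` -/
noncomputable def UU {n : ℕ} (k : ℕ) (R : Finset (Finset (Fin n))) : Finset (Finset (Fin n)) :=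
  (facets n k).filter (fun f => ∃ ρ ∈ R, ρ ⊆ f)

lemma UU_card {n k : ℕ} (hk : 2 ≤ k) {R : Finset (Finset (Fin n))}
    (hR : R ⊆ (univ : Finset (Fin n)).powersetCard (k - 2)) : (UU k R).card ≤ R.card * n := by
  have h1 : UU k R ⊆ R.biUnion (fun ρ => (univ : Finset (Fin n)).image (fun x => insert x ρ)) := by
    intro f hf
    unfold UU at hf
    rw [Finset.mem_filter] at hf
    obtain ⟨h2, ρ, hρ, h3⟩ := hf
    unfold facets at h2
    have h4 := (Finset.mem_powersetCard.1 h2).2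
    have h5 := (Finset.mem_powersetCard.1 (hR hρ)).2
    obtain ⟨a, -, ha⟩ := Finset.exists_eq_insert_iff.2 ⟨h3, show ρ.card + 1 = f.card by omega⟩
    rw [Finset.mem_biUnion]
    exact ⟨ρ, hρ, Finset.mem_image.2 ⟨a, Finset.mem_univ _, ha⟩⟩
  refine (Finset.card_le_card h1).trans (Finset.card_biUnion_le.trans ?_)
  calc ∑ ρ ∈ R, ((univ : Finset (Fin n)).image (fun x => insert x ρ)).card
      ≤ ∑ _ρ ∈ R, n := by
        apply Finset.sum_le_sum
        intro ρ _
        refine Finset.card_image_le.trans ?_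
        rw [Finset.card_univ, Fintype.card_fin]
    _ = R.card * n := by rw [Finset.sum_const, smul_eq_mul]

/-- the possible sets `R` -/
noncomputable def RR (n k : ℕ) (K : ℝ) (s : ℕ) : Finset (Finset (Finset (Fin n))) :=
  ((univ : Finset (Fin n)).powersetCard (k - 2)).powerset.filter
    (fun R => (R.card : ℝ) * n ≤ K * s)

lemma RR_card {n k : ℕ} (hk : 2 ≤ k) (hn : 2 ≤ n) {K : ℝ} (hK : 0 < K)
    (hlog : K * k * Real.log n / n ≤ 1) (s : ℕ) : ((RR n k K s).card : ℝ) ≤ Real.exp s := by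
  have hnR : (2 : ℝ) ≤ n := by exact_mod_cast hn
  have hn0 : (0 : ℝ) < n := by linarith
  obtain ⟨m, hm⟩ : ∃ m : ℕ, m = ⌊K * s / n⌋₊ := ⟨_, rfl⟩
  have hm1 : (m : ℝ) ≤ K * s / n := by
    rw [hm]
    exact Nat.floor_le (by positivity)
  have h1 : RR n k K s ⊆ ((univ : Finset (Fin n)).powersetCard (k - 2)).powerset.filter
      (fun R => R.card ≤ m) := by
    intro R hR
    unfold RR at hR
    rw [Finset.mem_filter] at hR ⊢
    refine ⟨hR.1, ?_⟩
    rw [hm]
    apply Nat.le_floor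
    rw [le_div_iff₀ hn0]
    exact hR.2
  have h2 := (Finset.card_le_card h1).trans (subsets_card _ m)
  rw [Finset.card_powersetCard, Finset.card_univ, Fintype.card_fin] at h2
  have h3 : n.choose (k - 2) + 1 ≤ n ^ k := by
    have h4 : n.choose (k - 2) ≤ n ^ (k - 2) := Nat.choose_le_pow _ _
    have h5 : n ^ k = n ^ (k - 2) * n ^ 2 := by
      rw [← pow_add]
      congr 1
      omega
    have h6 : 1 ≤ n ^ (k - 2) := Nat.one_le_pow _ _ (by omega)
    have h7 : 2 ≤ n ^ 2 := by nlinarith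
    rw [h5]
    nlinarith
  have h4 : (RR n k K s).card ≤ (n ^ k) ^ m := h2.trans (Nat.pow_le_pow_left h3 m)
  have h5 : ((RR n k K s).card : ℝ) ≤ ((n : ℝ) ^ k) ^ m := by exact_mod_cast h4
  refine h5.trans ?_
  have h6 : (n : ℝ) = Real.exp (Real.log n) := (Real.exp_log hn0).symm
  rw [← pow_mul]
  conv_lhs => rw [h6]
  rw [← Real.exp_nat_mul]
  apply Real.exp_le_exp.2
  have hlog0 : 0 ≤ Real.log n := Real.log_nonneg (by linarith)
  push_cast
  have h7 : (k : ℝ) * m * Real.log n ≤ k * (K * s / n) * Real.log n := by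
    apply mul_le_mul_of_nonneg_right _ hlog0
    exact mul_le_mul_of_nonneg_left hm1 (Nat.cast_nonneg k)
  have h8 : (k : ℝ) * (K * s / n) * Real.log n = s * (K * k * Real.log n / n) := by ring
  have h9 : (s : ℝ) * (K * k * Real.log n / n) ≤ s * 1 :=
    mul_le_mul_of_nonneg_left hlog (Nat.cast_nonneg s)
  linarith

/-- the possible vectors with the set `R` -/
noncomputable def ZR {n : ℕ} (k B s : ℕ) (R : Finset (Finset (Fin n))) :
    Finset (Finset (Fin n) → ℤ) :=
  (Fintype.piFinset (fun f : Finset (Fin n) =>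
    if f ∈ UU k R then Finset.Icc (-((B ^ s : ℕ) : ℤ)) ((B ^ s : ℕ) : ℤ) else {0})).filter
      (fun z => ∏ f, (1 + |z f|) ≤ ((B ^ s : ℕ) : ℤ))

/-- the possible vectors -/
noncomputable def ZZ (n k : ℕ) (K : ℝ) (B s : ℕ) : Finset (Finset (Fin n) → ℤ) :=
  (RR n k K s).biUnion (fun R => ZR k B s R)

lemma ZZ_card {n k : ℕ} (hk : 2 ≤ k) (hn : 2 ≤ n) {K : ℝ} (hK : 0 < K)
    (hlog : K * k * Real.log n / n ≤ 1) (B s : ℕ) :
    ((ZZ n k K B s).card : ℝ) ≤ (Real.exp (1 + 2 * K) * (B : ℝ) ^ 2) ^ s := by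
  have h1 : ((ZZ n k K B s).card : ℝ) ≤ ∑ R ∈ RR n k K s, ((ZR k B s R).card : ℝ) := by
    exact_mod_cast Finset.card_biUnion_le
  have h2 : ∀ R ∈ RR n k K s, ((ZR k B s R).card : ℝ) ≤
      ((B : ℝ) ^ s) ^ 2 * Real.exp (2 * K * s) := by
    intro R hR
    unfold RR at hR
    rw [Finset.mem_filter, Finset.mem_powerset] at hR
    have h3 := count (UU k R) (B ^ s) (B ^ s)
    unfold ZR
    refine h3.trans ?_
    push_cast
    refine mul_le_mul_of_nonneg_left ?_ (by positivity)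
    have h4 : (3 : ℝ) ≤ Real.exp 2 := by
      have := Real.add_one_le_exp (2 : ℝ)
      linarith
    have h5 := pow_le_pow_left₀ (by norm_num : (0 : ℝ) ≤ 3) h4 (UU k R).card
    refine h5.trans ?_
    rw [← Real.exp_nat_mul]
    apply Real.exp_le_exp.2
    have h6 : ((UU k R).card : ℝ) ≤ R.card * n := by exact_mod_cast UU_card hk hR.1
    linarith [hR.2]
  calc ((ZZ n k K B s).card : ℝ) ≤ ∑ R ∈ RR n k K s, ((ZR k B s R).card : ℝ) := h1
    _ ≤ ∑ _R ∈ RR n k K s, ((B : ℝ) ^ s) ^ 2 * Real.exp (2 * K * s) := Finset.sum_le_sum h2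
    _ = (RR n k K s).card * (((B : ℝ) ^ s) ^ 2 * Real.exp (2 * K * s)) := by
        rw [Finset.sum_const, nsmul_eq_mul]
    _ ≤ Real.exp s * (((B : ℝ) ^ s) ^ 2 * Real.exp (2 * K * s)) :=
        mul_le_mul_of_nonneg_right (RR_card hk hn hK hlog s) (by positivity)
    _ = (Real.exp (1 + 2 * K) * (B : ℝ) ^ 2) ^ s := by
        rw [mul_pow, ← Real.exp_nat_mul, show (s : ℝ) * (1 + 2 * K) = s + 2 * K * s by ring,
          Real.exp_add]
        ring

lemma mem_ZZ {n k : ℕ} {K : ℝ} {B s : ℕ} {R : Finset (Finset (Fin n))}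
    {z : Finset (Fin n) → ℤ} (hR : R ⊆ (univ : Finset (Fin n)).powersetCard (k - 2))
    (hz : ∀ f, z f ≠ 0 → f ∈ facets n k ∧ ∃ ρ ∈ R, ρ ⊆ f) (hRK : (R.card : ℝ) * n ≤ K * s)
    (hB : ∏ f ∈ facets n k, (1 + |z f|) ≤ (B : ℤ) ^ s) : z ∈ ZZ n k K B s := by
  have h1 : ∏ f, (1 + |z f|) = ∏ f ∈ facets n k, (1 + |z f|) := by
    symm
    apply Finset.prod_subset (Finset.subset_univ _)
    intro f _ hf
    have : z f = 0 := by
      by_contra h
      exact hf (hz f h).1
    rw [this]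
    simp
  unfold ZZ RR ZR
  rw [Finset.mem_biUnion]
  refine ⟨R, Finset.mem_filter.2 ⟨Finset.mem_powerset.2 hR, hRK⟩, Finset.mem_filter.2 ⟨?_, ?_⟩⟩
  · rw [Fintype.mem_piFinset]
    intro f
    split_ifs with hf
    · have h2 : 1 + |z f| ≤ ∏ f, (1 + |z f|) := by
        rw [← Finset.mul_prod_erase Finset.univ (fun f => 1 + |z f|) (Finset.mem_univ f)]
        have h3 : (1 : ℤ) ≤ ∏ g ∈ Finset.univ.erase f, (1 + |z g|) := by
          calc (1 : ℤ) = ∏ g ∈ Finset.univ.erase f, (1 : ℤ) := by simp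
            _ ≤ _ := Finset.prod_le_prod (fun _ _ => zero_le_one)
              (fun g _ => by linarith [abs_nonneg (z g)])
        have h4 : 0 ≤ 1 + |z f| := by linarith [abs_nonneg (z f)]
        nlinarith
      rw [h1] at h2
      have h3 := h2.trans hB
      rw [Finset.mem_Icc]
      push_cast
      have h4 := abs_le.1 (show |z f| ≤ (B : ℤ) ^ s by linarith)
      exact h4
    · rw [Finset.mem_singleton]
      by_contra h
      apply hf
      unfold UU
      exact Finset.mem_filter.2 (hz f h)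
  · rw [h1]
    push_cast
    exact hB

/-! ### The union bound -/

lemma exs_sum {X I : Type*} [DecidableEq X] (s : Finset X) (p : ℝ) (T : Finset I)
    (f : I → Finset X → ℝ) :
    exs s p (fun W => ∑ i ∈ T, f i W) = ∑ i ∈ T, exs s p (f i) := by
  unfold exs
  rw [Finset.sum_comm]
  refine Finset.sum_congr rfl fun W _ => ?_
  rw [Finset.mul_sum]

/-- the heavy edges -/
noncomputable def EE {n : ℕ} (k : ℕ) (a : ℝ) (z : Finset (Fin n) → ℤ) :
    Finset (Finset (Fin n)) :=
  (edges n k).filter (fun e => a ≤ |fs k (fun f => (z f : ℝ)) e|)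

lemma geo {q : ℝ} (hq0 : 0 ≤ q) (hq : q ≤ 1 / 2) (S : ℕ) :
    ∑ s ∈ Finset.Icc 1 S, q ^ s ≤ 2 * q := by
  have h1 : (∑ s ∈ Finset.Icc 1 S, q ^ s) * (1 - q) = q - q ^ (S + 1) := by
    induction S with
    | zero => simp
    | succ S ih =>
      rw [Finset.sum_Icc_succ_top (by omega), add_mul, ih]
      ring
  have h2 : 0 ≤ q ^ (S + 1) := by positivity
  have h3 : 0 ≤ ∑ s ∈ Finset.Icc 1 S, q ^ s := Finset.sum_nonneg fun s _ => by positivity
  nlinarith

lemma main {n k : ℕ} (hk : 2 ≤ k) (hn : 2 ≤ n) {δ : ℝ} (h0 : 0 < δ) (h1 : δ ≤ 1 / 8)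
    {a c₁ K : ℝ} (hc : 0 < c₁) (hK : 0 < K) (B : ℕ)
    (hlog : K * k * Real.log n / n ≤ 1) (hp1 : pm k δ n ≤ 1)
    (hq : Real.exp (1 + 2 * K) * (B : ℝ) ^ 2 * Real.exp (-(2 / 5 * c₁ * Real.log n)) ≤ 1 / 2) :
    exs (edges n k) (pm k δ n) (fun W => ind (¬ Q5 k a c₁ K (c₁ / 8) B W)) ≤
      2 * (Real.exp (1 + 2 * K) * (B : ℝ) ^ 2 * Real.exp (-(2 / 5 * c₁ * Real.log n))) := by
  have hnR : (2 : ℝ) ≤ n := by exact_mod_cast hn
  have hn0 : (0 : ℝ) < n := by linarith
  have hlog0 : 0 ≤ Real.log n := Real.log_nonneg (by linarith)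
  have hkR : (2 : ℝ) ≤ k := by exact_mod_cast hk
  have hp0 : 0 ≤ pm k δ n := by
    unfold pm
    apply div_nonneg _ hn0.le
    apply mul_nonneg (by linarith)
    apply mul_nonneg (by linarith) hlog0
  obtain ⟨S, hS⟩ : ∃ S : ℕ, S = ⌊((edges n k).card : ℝ) / c₁⌋₊ := ⟨_, rfl⟩
  have hpoint : ∀ W, W ⊆ edges n k → ind (¬ Q5 k a c₁ K (c₁ / 8) B W) ≤
      ∑ s ∈ Finset.Icc 1 S, ∑ z ∈ (ZZ n k K B s).filter (fun z => c₁ * s * n ≤ (EE k a z).card),
        ind (((W ∩ EE k a z).card : ℝ) < c₁ / 8 * s * Real.log n) := by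
    intro W hW
    by_cases hQ : Q5 k a c₁ K (c₁ / 8) B W
    · rw [ind_false (by simpa using hQ)]
      exact Finset.sum_nonneg fun s _ => Finset.sum_nonneg fun z _ => ind_nonneg _
    · rw [ind_true hQ]
      unfold Q5 at hQ
      push Not at hQ
      obtain ⟨s, R, z, hs, hR, hz, hRK, hB, hE, hlt⟩ := hQ
      have hzZ : z ∈ (ZZ n k K B s).filter (fun z => c₁ * s * n ≤ (EE k a z).card) :=
        Finset.mem_filter.2 ⟨mem_ZZ hR hz hRK hB, hE⟩
      have hsS : s ∈ Finset.Icc 1 S := by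
        rw [Finset.mem_Icc]
        refine ⟨hs, ?_⟩
        rw [hS]
        apply Nat.le_floor
        rw [le_div_iff₀ hc]
        have h2 : (((edges n k).filter (fun e => a ≤ |fs k (fun f => (z f : ℝ)) e|)).card : ℝ) ≤
            ((edges n k).card : ℝ) := by
          exact_mod_cast Finset.card_le_card (Finset.filter_subset _ _)
        have h3 : (s : ℝ) * c₁ ≤ c₁ * s * n := by
          have h4 : 0 ≤ c₁ * s := by positivity
          nlinarith
        linarith
      have hev : ((W ∩ EE k a z).card : ℝ) < c₁ / 8 * s * Real.log n := by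
        have h2 : W ∩ EE k a z = W.filter (fun e => a ≤ |fs k (fun f => (z f : ℝ)) e|) := by
          unfold EE
          ext e
          simp only [Finset.mem_inter, Finset.mem_filter]
          constructor
          · rintro ⟨h3, -, h4⟩
            exact ⟨h3, h4⟩
          · rintro ⟨h3, h4⟩
            exact ⟨h3, hW h3, h4⟩
        rw [h2]
        exact hlt
      calc (1 : ℝ) = ind (((W ∩ EE k a z).card : ℝ) < c₁ / 8 * s * Real.log n) :=
            (ind_true hev).symm
        _ ≤ ∑ z ∈ (ZZ n k K B s).filter (fun z => c₁ * s * n ≤ (EE k a z).card),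
            ind (((W ∩ EE k a z).card : ℝ) < c₁ / 8 * s * Real.log n) :=
            Finset.single_le_sum
              (f := fun z => ind (((W ∩ EE k a z).card : ℝ) < c₁ / 8 * s * Real.log n))
              (fun _ _ => ind_nonneg _) hzZ
        _ ≤ _ := Finset.single_le_sum
              (f := fun s : ℕ => ∑ z ∈ (ZZ n k K B s).filter
                (fun z => c₁ * s * n ≤ (EE k a z).card),
                ind (((W ∩ EE k a z).card : ℝ) < c₁ / 8 * s * Real.log n))
              (fun _ _ => Finset.sum_nonneg fun _ _ => ind_nonneg _) hsS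
  refine (exs_mono _ hp0 hp1 hpoint).trans ?_
  rw [exs_sum]
  obtain ⟨q, hqd⟩ : ∃ q : ℝ, q = Real.exp (1 + 2 * K) * (B : ℝ) ^ 2 *
    Real.exp (-(2 / 5 * c₁ * Real.log n)) := ⟨_, rfl⟩
  rw [← hqd] at hq ⊢
  have hq0 : 0 ≤ q := by rw [hqd]; positivity
  refine le_trans ?_ (geo hq0 hq S)
  apply Finset.sum_le_sum
  intro s hs
  rw [exs_sum]
  have hz : ∀ z ∈ (ZZ n k K B s).filter (fun z => c₁ * s * n ≤ (EE k a z).card),
      exs (edges n k) (pm k δ n)
        (fun W => ind (((W ∩ EE k a z).card : ℝ) < c₁ / 8 * s * Real.log n)) ≤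
        Real.exp (-(2 / 5 * c₁ * Real.log n)) ^ s := by
    intro z hz
    have h2 := (Finset.mem_filter.1 hz).2
    refine (tail _ _ (Finset.filter_subset _ _) hp0 hp1 _).trans ?_
    rw [← Real.exp_nat_mul]
    apply Real.exp_le_exp.2
    have h3 : 7 / 8 * (c₁ * s * Real.log n) ≤ pm k δ n * (EE k a z).card := by
      have h4 : pm k δ n * (c₁ * s * n) ≤ pm k δ n * (EE k a z).card :=
        mul_le_mul_of_nonneg_left h2 hp0
      refine le_trans ?_ h4
      have h5 : pm k δ n * (c₁ * s * n) =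
          (1 - δ) * ((k : ℝ) - 1) * (c₁ * s * Real.log n) := by
        unfold pm
        field_simp
      rw [h5]
      have h6 : 0 ≤ c₁ * s * Real.log n := by positivity
      have h7 : (7 : ℝ) / 8 ≤ (1 - δ) * ((k : ℝ) - 1) := by nlinarith
      exact mul_le_mul_of_nonneg_right h7 h6
    change c₁ / 8 * s * Real.log n - 3 / 5 * (pm k δ n * (EE k a z).card) ≤ _
    linarith
  calc ∑ z ∈ (ZZ n k K B s).filter (fun z => c₁ * s * n ≤ (EE k a z).card),
        exs (edges n k) (pm k δ n)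
          (fun W => ind (((W ∩ EE k a z).card : ℝ) < c₁ / 8 * s * Real.log n))
      ≤ ∑ _z ∈ (ZZ n k K B s).filter (fun z => c₁ * s * n ≤ (EE k a z).card),
        Real.exp (-(2 / 5 * c₁ * Real.log n)) ^ s := Finset.sum_le_sum hz
    _ = ((ZZ n k K B s).filter (fun z => c₁ * s * n ≤ (EE k a z).card)).card *
        Real.exp (-(2 / 5 * c₁ * Real.log n)) ^ s := by
        rw [Finset.sum_const, nsmul_eq_mul]
    _ ≤ (Real.exp (1 + 2 * K) * (B : ℝ) ^ 2) ^ s *
        Real.exp (-(2 / 5 * c₁ * Real.log n)) ^ s := by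
        apply mul_le_mul_of_nonneg_right _ (by positivity)
        refine le_trans ?_ (ZZ_card hk hn hK hlog B s)
        exact_mod_cast Finset.card_le_card (Finset.filter_subset _ _)
    _ = q ^ s := by rw [← mul_pow, ← hqd]

end P5

theorem prob_Q5 {k : ℕ} (hk : 2 ≤ k) (δ : ℝ) (h0 : 0 < δ) (h1 : δ ≤ 1 / 8) (a c₁ K : ℝ)
    (ha : 0 < a) (hc : 0 < c₁) (hK : 0 < K) (B : ℕ) :
    Filter.Tendsto (fun n : ℕ => exs (edges n k) (pm k δ n)
      (fun W => ind (¬ Q5 k a c₁ K (c₁ / 8) B W))) Filter.atTop (nhds 0) := by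
  have hlogn : Filter.Tendsto (fun n : ℕ => Real.log n) Filter.atTop Filter.atTop :=
    Real.tendsto_log_atTop.comp tendsto_natCast_atTop_atTop
  have hlogd : Filter.Tendsto (fun n : ℕ => Real.log n / n) Filter.atTop (nhds 0) := by
    have h2 := Real.tendsto_pow_log_div_mul_add_atTop 1 0 1 one_ne_zero
    have h3 := h2.comp (tendsto_natCast_atTop_atTop (R := ℝ))
    refine h3.congr fun n => ?_
    simp
  have hq : Filter.Tendsto (fun n : ℕ => Real.exp (1 + 2 * K) * (B : ℝ) ^ 2 *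
      Real.exp (-(2 / 5 * c₁ * Real.log n))) Filter.atTop (nhds 0) := by
    have h2 : Filter.Tendsto (fun n : ℕ => 2 / 5 * c₁ * Real.log n) Filter.atTop Filter.atTop :=
      hlogn.const_mul_atTop (by positivity)
    have h3 := (Real.tendsto_exp_neg_atTop_nhds_zero.comp h2).const_mul
      (Real.exp (1 + 2 * K) * (B : ℝ) ^ 2)
    rw [mul_zero] at h3
    exact h3
  have hlim : Filter.Tendsto (fun n : ℕ => 2 * (Real.exp (1 + 2 * K) * (B : ℝ) ^ 2 *
      Real.exp (-(2 / 5 * c₁ * Real.log n)))) Filter.atTop (nhds 0) := by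
    have := hq.const_mul 2
    rwa [mul_zero] at this
  have e1 : ∀ᶠ n : ℕ in Filter.atTop, K * k * Real.log n / n ≤ 1 := by
    have h2 := hlogd.const_mul (K * k)
    rw [mul_zero] at h2
    filter_upwards [h2.eventually (ge_mem_nhds (by norm_num : (0 : ℝ) < 1))] with n hn
    rw [mul_div_assoc]
    exact hn
  have e2 : ∀ᶠ n : ℕ in Filter.atTop, pm k δ n ≤ 1 := by
    have h2 := hlogd.const_mul ((1 - δ) * ((k : ℝ) - 1))
    rw [mul_zero] at h2
    filter_upwards [h2.eventually (ge_mem_nhds (by norm_num : (0 : ℝ) < 1))] with n hn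
    unfold pm
    refine le_trans (le_of_eq ?_) hn
    ring
  have e3 : ∀ᶠ n : ℕ in Filter.atTop, Real.exp (1 + 2 * K) * (B : ℝ) ^ 2 *
      Real.exp (-(2 / 5 * c₁ * Real.log n)) ≤ 1 / 2 :=
    hq.eventually (ge_mem_nhds (by norm_num : (0 : ℝ) < 1 / 2))
  refine squeeze_zero' ?_ ?_ hlim
  · filter_upwards [e2, Filter.eventually_ge_atTop 2] with n hp1 hn
    have hnR : (2 : ℝ) ≤ n := by exact_mod_cast hn
    have hkR : (2 : ℝ) ≤ k := by exact_mod_cast hk
    have hlog0 : 0 ≤ Real.log n := Real.log_nonneg (by linarith)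
    have hp0 : 0 ≤ pm k δ n := by
      unfold pm
      apply div_nonneg _ (by linarith)
      apply mul_nonneg (by linarith)
      apply mul_nonneg (by linarith) hlog0
    exact exs_nonneg _ hp0 hp1 fun W _ => ind_nonneg _
  · filter_upwards [e1, e2, e3, Filter.eventually_ge_atTop 2] with n g1 g2 g3 hn
    exact P5.main hk hn h0 h1 hc hK B g1 g2 g3

end Pool.Agent.TH948.HT
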